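import Pool.Agent.P.MP_d7b7be_al.Main

set_option autoImplicit false

namespace Pool.Agent.Results.MP_d7b7be_al.UnboundedExponent

/-- The normalised Hamming distance on the symmetric group `S_n`. -/
noncomputable def hamming {n : ℕ} (σ τ : Equiv.Perm (Fin n)) : ℝ :=
  ((Finset.univ.filter fun i => σ i ≠ τ i).card : ℝ) / n

/-- Sofic groups, by finite approximations `θ : F → S_n`. -/
def IsSofic (G : Type) [Group G] : Prop :=
  ∀ (F : Finset G) (ε : ℝ), 0 < ε → ∃ n : ℕ, 1 ≤ n ∧ ∃ θ : F → Equiv.Perm (Fin n),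
    (∀ (g h : F) (hgh : (g : G) * h ∈ F), hamming (θ g * θ h) (θ ⟨g * h, hgh⟩) < ε) ∧
    (∀ he : (1 : G) ∈ F, hamming (θ ⟨1, he⟩) 1 < ε) ∧
    ∀ x y : F, x ≠ y → 1 / 4 ≤ hamming (θ x) (θ y)

/-- Not sofic, while every proper subgroup is sofic. -/
def IsMinimalNonSofic (G : Type) [Group G] : Prop :=
  ¬ IsSofic G ∧ ∀ K : Subgroup G, K ≠ ⊤ → IsSofic K

/-- There is a periodic minimal non-sofic group whose element orders are unbounded; it does not
have bounded exponent. -/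
theorem result : ∃ (G : Type) (_ : Group G), (∀ g : G, IsOfFinOrder g) ∧ IsMinimalNonSofic G ∧
    (∀ k : ℕ, ∃ g : G, k < orderOf g) ∧ ¬ ∃ m : ℕ, 1 ≤ m ∧ ∀ g : G, g ^ m = 1 := by
  obtain ⟨G, _, h1, h2, h3, h4⟩ := Pool.Agent.P.MP_d7b7be_al.main
  refine ⟨G, inferInstance, h1, ⟨h2, h3⟩, fun k => ?_, fun ⟨m, hm, h⟩ => ?_⟩
  · obtain ⟨g, hg⟩ := h4 k.factorial (Nat.factorial_pos k)
    refine ⟨g, not_le.1 fun hk => hg ?_⟩
    exact orderOf_dvd_iff_pow_eq_one.1 (Nat.dvd_factorial (h1 g).orderOf_pos hk)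
  · obtain ⟨g, hg⟩ := h4 m hm
    exact hg (h g)

end Pool.Agent.Results.MP_d7b7be_al.UnboundedExponent
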